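import Mathlib

/-!
Weighted norms of integer power series and the splitting step of the construction.
-/

set_option autoImplicit false

namespace Pool.Agent.H258Z.Cogrowth

open PowerSeries Finset

/-- partial sums of the weighted norm at radius `1 / 32` -/
noncomputable def S (M : ℕ) (f : ℤ⟦X⟧) : ℝ :=
  ∑ n ∈ range M, |((coeff n f : ℤ) : ℝ)| * (1 / 32 : ℝ) ^ n

/-- the weighted norm of `f` is at most `A` -/
def Bd (f : ℤ⟦X⟧) (A : ℝ) : Prop := ∀ M, S M f ≤ A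

lemma S_nonneg (M : ℕ) (f : ℤ⟦X⟧) : 0 ≤ S M f :=
  sum_nonneg fun _ _ => by positivity

lemma Bd.nonneg {f : ℤ⟦X⟧} {A : ℝ} (h : Bd f A) : 0 ≤ A := (S_nonneg 0 f).trans (h 0)

lemma Bd.mono {f : ℤ⟦X⟧} {A B : ℝ} (h : Bd f A) (hAB : A ≤ B) : Bd f B :=
  fun M => (h M).trans hAB

lemma S_add (M : ℕ) (f g : ℤ⟦X⟧) : S M (f + g) ≤ S M f + S M g := by
  unfold S
  rw [← sum_add_distrib]
  refine sum_le_sum fun n _ => ?_
  rw [← add_mul, map_add, Int.cast_add]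
  exact mul_le_mul_of_nonneg_right (abs_add_le _ _) (by positivity)

lemma S_neg (M : ℕ) (f : ℤ⟦X⟧) : S M (-f) = S M f := by
  unfold S
  refine sum_congr rfl fun n _ => ?_
  rw [map_neg, Int.cast_neg, abs_neg]

lemma S_mul (M : ℕ) (f g : ℤ⟦X⟧) : S M (f * g) ≤ S M f * S M g := by
  unfold S
  rw [sum_mul_sum, ← sum_product']
  have h1 : ∀ n ∈ range M, |((coeff n (f * g) : ℤ) : ℝ)| * (1 / 32 : ℝ) ^ n ≤
      ∑ p ∈ antidiagonal n, |((coeff p.1 f : ℤ) : ℝ)| * (1 / 32 : ℝ) ^ p.1 *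
        (|((coeff p.2 g : ℤ) : ℝ)| * (1 / 32 : ℝ) ^ p.2) := by
    intro n _
    rw [coeff_mul, Int.cast_sum]
    refine (mul_le_mul_of_nonneg_right (abs_sum_le_sum_abs _ _) (by positivity)).trans ?_
    rw [sum_mul]
    refine sum_le_sum fun p hp => le_of_eq ?_
    rw [← HasAntidiagonal.mem_antidiagonal.1 hp, pow_add, Int.cast_mul, abs_mul]
    ring
  refine (sum_le_sum h1).trans ?_
  rw [← sum_biUnion]
  · refine sum_le_sum_of_subset_of_nonneg ?_ fun p _ _ => by positivity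
    intro p hp
    rw [mem_biUnion] at hp
    obtain ⟨n, hn, hp⟩ := hp
    rw [mem_range] at hn
    rw [HasAntidiagonal.mem_antidiagonal] at hp
    rw [mem_product, mem_range, mem_range]
    omega
  · intro a _ b _ hab
    rw [Function.onFun, disjoint_left]
    intro p h1 h2
    rw [HasAntidiagonal.mem_antidiagonal] at h1 h2
    exact hab (h1.symm.trans h2)

lemma Bd.add {f g : ℤ⟦X⟧} {A B : ℝ} (hf : Bd f A) (hg : Bd g B) : Bd (f + g) (A + B) :=
  fun M => (S_add M f g).trans (add_le_add (hf M) (hg M))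

lemma Bd.neg {f : ℤ⟦X⟧} {A : ℝ} (hf : Bd f A) : Bd (-f) A :=
  fun M => (S_neg M f).trans_le (hf M)

lemma Bd.sub {f g : ℤ⟦X⟧} {A B : ℝ} (hf : Bd f A) (hg : Bd g B) : Bd (f - g) (A + B) := by
  rw [sub_eq_add_neg]
  exact hf.add hg.neg

lemma Bd.mul {f g : ℤ⟦X⟧} {A B : ℝ} (hf : Bd f A) (hg : Bd g B) : Bd (f * g) (A * B) :=
  fun M => (S_mul M f g).trans (mul_le_mul (hf M) (hg M) (S_nonneg M g) hf.nonneg)

lemma bd_monomial (k : ℕ) (c : ℤ) : Bd (monomial k c) (|(c : ℝ)| * (1 / 32 : ℝ) ^ k) := by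
  intro M
  unfold S
  have : ∀ n ∈ range M, |((coeff n (monomial k c) : ℤ) : ℝ)| * (1 / 32 : ℝ) ^ n =
      if n = k then |(c : ℝ)| * (1 / 32 : ℝ) ^ k else 0 := by
    intro n _
    rw [coeff_monomial]
    split_ifs with h
    · rw [h]
    · simp
  rw [sum_congr rfl this, sum_ite_eq']
  split_ifs
  · exact le_rfl
  · positivity

lemma bd_X_pow (k : ℕ) : Bd (X ^ k) ((1 / 32 : ℝ) ^ k) := by
  have := bd_monomial k 1
  rw [X_pow_eq]
  simpa using this

lemma bd_C (c : ℤ) : Bd (C c) |(c : ℝ)| := by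
  have := bd_monomial 0 c
  rw [monomial_zero_eq_C_apply] at this
  simpa using this

lemma bd_nat (c : ℕ) : Bd (c : ℤ⟦X⟧) (c : ℝ) := by
  have := bd_C (c : ℤ)
  simpa using this

lemma bd_one : Bd 1 1 := by simpa using bd_nat 1

lemma bd_X : Bd X (1 / 32) := by simpa using bd_X_pow 1

lemma bd_zero : Bd 0 0 := by simpa using bd_nat 0

lemma Bd.of_X_mul {f : ℤ⟦X⟧} {A : ℝ} (h : Bd (X * f) A) : Bd f (32 * A) := by
  intro M
  have h1 := h (M + 1)
  unfold S at h1 ⊢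
  rw [sum_range_succ'] at h1
  simp only [coeff_succ_X_mul, coeff_zero_X_mul, Int.cast_zero, abs_zero, zero_mul,
    add_zero] at h1
  have h2 : ∑ n ∈ range M, |((coeff n f : ℤ) : ℝ)| * (1 / 32 : ℝ) ^ n =
      32 * ∑ n ∈ range M, |((coeff n f : ℤ) : ℝ)| * (1 / 32 : ℝ) ^ (n + 1) := by
    rw [mul_sum]
    refine sum_congr rfl fun n _ => ?_
    rw [pow_succ]
    ring
  rw [h2]
  linarith

lemma Bd.tail {f : ℤ⟦X⟧} {A : ℝ} (h : Bd f A) :
    Bd (f - C (coeff 0 f)) (A - |((coeff 0 f : ℤ) : ℝ)|) := by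
  intro M
  have h1 := h (M + 1)
  have h2 : S M (f - C (coeff 0 f)) ≤ S (M + 1) (f - C (coeff 0 f)) := by
    unfold S
    rw [sum_range_succ]
    have : 0 ≤ |((coeff M (f - C (coeff 0 f)) : ℤ) : ℝ)| * (1 / 32 : ℝ) ^ M := by positivity
    linarith
  have h3 : S (M + 1) (f - C (coeff 0 f)) = S (M + 1) f - |((coeff 0 f : ℤ) : ℝ)| := by
    unfold S
    rw [sum_range_succ', sum_range_succ']
    simp only [map_sub, coeff_C, Nat.succ_ne_zero, if_false, if_true, sub_zero, sub_self,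
      Int.cast_zero, abs_zero, add_zero, pow_zero, mul_one, add_sub_cancel_right]
  linarith

lemma bd_inv {f g : ℤ⟦X⟧} (hf : Bd f (1 / 2)) (h : (1 + f) * g = 1) : Bd g 2 := by
  intro M
  have h1 : g = 1 + -(f * g) := by linear_combination h
  have h2 : S M g ≤ S M 1 + S M (-(f * g)) := by
    conv_lhs => rw [h1]
    exact S_add _ _ _
  rw [S_neg] at h2
  have h3 := S_mul M f g
  have h4 := bd_one M
  have h5 := hf M
  have h6 := S_nonneg M g
  nlinarith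

lemma geom_le (M : ℕ) : ∑ n ∈ range M, (1 / 32 : ℝ) ^ (n + 1) ≤ 1 / 16 := by
  have : ∀ M : ℕ, ∑ n ∈ range M, (1 / 32 : ℝ) ^ (n + 1) ≤ 1 / 16 - (1 / 32 : ℝ) ^ (M + 1) := by
    intro M
    induction M with
    | zero => norm_num
    | succ M ih =>
      rw [sum_range_succ, pow_succ _ (M + 1)]
      have : (0 : ℝ) ≤ (1 / 32 : ℝ) ^ (M + 1) := by positivity
      have h2 : ∑ n ∈ range M, (1 / 32 : ℝ) ^ (n + 1) ≤ 1 / 16 - 2 * (1 / 32 : ℝ) ^ (M + 1) := by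
        clear ih this
        induction M with
        | zero => norm_num
        | succ M ih =>
          rw [sum_range_succ, pow_succ _ (M + 1)]
          have : (0 : ℝ) ≤ (1 / 32 : ℝ) ^ (M + 1) := by positivity
          linarith
      linarith
  have h := this M
  have : (0 : ℝ) ≤ (1 / 32 : ℝ) ^ (M + 1) := by positivity
  linarith

lemma exists_inv (D : ℤ⟦X⟧) (h : coeff 0 D = 1) : ∃ G, D * G = 1 := by
  refine ⟨invOfUnit D 1, mul_invOfUnit D 1 ?_⟩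
  simpa using h

/-- one peeling step: remove `c` loops of length `v` -/
lemma peel {v c : ℕ} (hv : 1 ≤ v) (hc : 1 ≤ c) {N P G : ℤ⟦X⟧} {e p : ℝ}
    (hN0 : coeff 0 N = c) (hN : Bd (N - c) (e * c)) (hP0 : coeff 0 P = 0) (hP : Bd P p)
    (he : e ≤ 1 / 4) (hp : p + 8 * (1 / 32 : ℝ) ^ v ≤ 1 / 8) (hG : (1 + X ^ v) * G = 1) :
    ∃ (c' : ℕ) (N' : ℤ⟦X⟧), 1 ≤ c' ∧ c' ≤ 128 * c ∧ coeff 0 N' = c' ∧
      Bd (N' - c') (3 / 16 * c') ∧ N = (c : ℤ⟦X⟧) * G * (1 - 64 * X + P) + X * N' := by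
  have hρ : (0 : ℝ) < (1 / 32 : ℝ) ^ v := by positivity
  have hp0 := hP.nonneg
  have hc0 : (1 : ℝ) ≤ c := by exact_mod_cast hc
  have hGb : Bd G 2 := by
    refine bd_inv ((bd_X_pow v).mono ?_) hG
    linarith
  have hD : Bd (1 - 64 * X + P) 4 := by
    have h64 : Bd (64 : ℤ⟦X⟧) 64 := by exact_mod_cast bd_nat 64
    refine ((bd_one.sub (h64.mul bd_X)).add hP).mono ?_
    linarith
  set Y : ℤ⟦X⟧ := (N - (c : ℤ⟦X⟧)) - (c : ℤ⟦X⟧) * P +
    (c : ℤ⟦X⟧) * (X ^ v * G * (1 - 64 * X + P)) with hY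
  have hYb : Bd Y (3 / 8 * c) := by
    refine ((hN.sub ((bd_nat c).mul hP)).add
      ((bd_nat c).mul (((bd_X_pow v).mul hGb).mul hD))).mono ?_
    nlinarith
  have hY0 : constantCoeff Y = 0 := by
    have h1 : constantCoeff N = c := by simpa using hN0
    have h2 : constantCoeff P = 0 := by simpa using hP0
    have h3 : v ≠ 0 := by omega
    simp [hY, h1, h2, h3]
  obtain ⟨Y', hY'⟩ := X_dvd_iff.2 hY0
  have hY'b : Bd Y' (12 * c) := by
    rw [hY'] at hYb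
    refine hYb.of_X_mul.mono (le_of_eq ?_)
    ring
  have ht := hY'b.tail
  have ht0 := ht.nonneg
  set y : ℤ := coeff 0 Y' with hy
  have hy1 := abs_le.1 (show |(y : ℝ)| ≤ 12 * c by linarith)
  have hy2 : (-(12 * c) : ℤ) ≤ y := by exact_mod_cast hy1.1
  have hy3 : y ≤ (12 * c : ℤ) := by exact_mod_cast hy1.2
  obtain ⟨c', hc'⟩ : ∃ c' : ℕ, (c' : ℤ) = 64 * c + y := ⟨(64 * c + y).toNat, by omega⟩
  refine ⟨c', (64 * c : ℕ) + Y', by omega, by omega, ?_, ?_, ?_⟩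
  · rw [map_add, hc', ← hy, ← map_natCast (C : ℤ →+* ℤ⟦X⟧), coeff_C]
    simp
  · have e1 : ((64 * c : ℕ) : ℤ⟦X⟧) + Y' - c' = Y' - C y := by
      have : (c' : ℤ⟦X⟧) = C (c' : ℤ) := by simp
      rw [this, hc']
      simp only [map_add, map_mul, map_natCast, map_ofNat]
      push_cast
      ring
    rw [e1]
    refine ht.mono ?_
    have h1 : (c' : ℝ) = 64 * c + y := by exact_mod_cast hc'
    rw [h1]
    have := neg_abs_le (y : ℝ)
    have := abs_nonneg (y : ℝ)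
    nlinarith
  · rw [mul_add X, ← hY', hY]
    push_cast
    linear_combination (-(c : ℤ⟦X⟧) * (1 - 64 * X + P)) * hG

/-- splitting a series with constant term `k` into `k` nearly equal parts -/
lemma split {k : ℕ} (hk : 1 ≤ k) {N : ℤ⟦X⟧} (hN0 : coeff 0 N = k) (hN : Bd (N - k) (3 / 16 * k)) :
    ∃ T : ℕ → ℤ⟦X⟧, (∀ j, coeff 0 (T j) = 1 ∧ Bd (T j - 1) (1 / 4)) ∧
      ∑ j ∈ range k, T j = N := by
  have hk0 : (0 : ℤ) < k := by exact_mod_cast hk
  have hkr : (0 : ℝ) < k := by exact_mod_cast hk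
  refine ⟨fun j => PowerSeries.mk fun n => coeff n N / k +
    if (j : ℤ) < coeff n N % k then 1 else 0, fun j => ⟨?_, ?_⟩, ?_⟩
  · rw [coeff_mk, hN0, Int.ediv_self hk0.ne', Int.emod_self, if_neg (by omega)]
    simp
  · intro M
    have h1 := hN (M + 1)
    have h2 := geom_le M
    set T : ℤ⟦X⟧ := PowerSeries.mk fun n => coeff n N / k +
      if (j : ℤ) < coeff n N % k then 1 else 0 with hT
    have h3 : S M (T - 1) ≤ S (M + 1) (T - 1) := by
      unfold S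
      rw [sum_range_succ]
      have : 0 ≤ |((coeff M (T - 1) : ℤ) : ℝ)| * (1 / 32 : ℝ) ^ M := by positivity
      linarith
    refine h3.trans ?_
    unfold S at h1 ⊢
    rw [sum_range_succ'] at h1 ⊢
    have h4 : coeff 0 (T - 1) = 0 := by
      rw [map_sub, hT, coeff_mk, hN0, Int.ediv_self hk0.ne', Int.emod_self, if_neg (by omega)]
      simp
    have h5 : coeff 0 (N - (k : ℤ⟦X⟧)) = 0 := by
      rw [map_sub, hN0]
      simp
    rw [h5] at h1
    rw [h4]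
    simp only [Int.cast_zero, abs_zero, zero_mul, add_zero] at h1 ⊢
    have h6 : ∀ n ∈ range M, |((coeff (n + 1) (T - 1) : ℤ) : ℝ)| * (1 / 32 : ℝ) ^ (n + 1) ≤
        (1 / (k : ℝ)) * (|((coeff (n + 1) (N - (k : ℤ⟦X⟧)) : ℤ) : ℝ)| * (1 / 32 : ℝ) ^ (n + 1)) +
          (1 / 32 : ℝ) ^ (n + 1) := by
      intro n _
      have e1 : coeff (n + 1) (N - (k : ℤ⟦X⟧)) = coeff (n + 1) N := by
        rw [map_sub, ← map_natCast (C : ℤ →+* ℤ⟦X⟧), coeff_C]
        simp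
      have e2 : coeff (n + 1) (T - 1) = coeff (n + 1) N / k +
          if (j : ℤ) < coeff (n + 1) N % k then 1 else 0 := by
        rw [map_sub, hT, coeff_mk, coeff_one]
        simp
      rw [e1, e2]
      set a : ℤ := coeff (n + 1) N
      have e3 : (k : ℤ) * (a / k) + a % k = a := Int.mul_ediv_add_emod a k
      have e4 : 0 ≤ a % k := Int.emod_nonneg a hk0.ne'
      have e5 : a % k < k := Int.emod_lt_of_pos a hk0
      have e6 : |(((a / k + if (j : ℤ) < a % k then 1 else 0 : ℤ)) : ℝ)| ≤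
          1 / (k : ℝ) * |(a : ℝ)| + 1 := by
        have e3' : (k : ℝ) * ((a / k : ℤ) : ℝ) + ((a % k : ℤ) : ℝ) = a := by exact_mod_cast e3
        have e4' : (0 : ℝ) ≤ ((a % k : ℤ) : ℝ) := by exact_mod_cast e4
        have e5' : ((a % k : ℤ) : ℝ) < k := by exact_mod_cast e5
        have e7 : (k : ℝ) * |(((a / k + if (j : ℤ) < a % k then 1 else 0 : ℤ)) : ℝ)| ≤
            |(a : ℝ)| + k := by
          rw [← abs_of_pos hkr, ← abs_mul, abs_of_pos hkr, abs_le]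
          have := le_abs_self (a : ℝ)
          have := neg_abs_le (a : ℝ)
          split_ifs
          · push_cast
            constructor <;> nlinarith
          · push_cast
            constructor <;> nlinarith
        have e8 : 1 / (k : ℝ) * |(a : ℝ)| + 1 = (|(a : ℝ)| + k) / k := by field_simp
        rw [e8, le_div_iff₀ hkr]
        linarith
      have : (0 : ℝ) ≤ (1 / 32 : ℝ) ^ (n + 1) := by positivity
      nlinarith
    refine (sum_le_sum h6).trans ?_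
    rw [sum_add_distrib, ← mul_sum]
    have h7 := mul_le_mul_of_nonneg_left h1 (show (0 : ℝ) ≤ 1 / (k : ℝ) by positivity)
    have h8 : 1 / (k : ℝ) * (3 / 16 * k) = 3 / 16 := by field_simp
    linarith
  · ext n
    rw [map_sum]
    simp only [coeff_mk]
    set a : ℤ := coeff n N
    have e3 : (k : ℤ) * (a / k) + a % k = a := Int.mul_ediv_add_emod a k
    have e4 : 0 ≤ a % k := Int.emod_nonneg a hk0.ne'
    have e5 : a % k < k := Int.emod_lt_of_pos a hk0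
    obtain ⟨r, hr⟩ : ∃ r : ℕ, (r : ℤ) = a % k := ⟨(a % k).toNat, by omega⟩
    rw [sum_add_distrib, sum_const, card_range, ← hr, sum_boole]
    have : (range k).filter (fun j : ℕ => (j : ℤ) < r) = range r := by
      ext j
      simp only [mem_filter, mem_range]
      omega
    rw [this, card_range, nsmul_eq_mul]
    omega

/-- the invariant of the construction -/
def Good (φ : ℤ⟦X⟧) : Prop :=
  ∃ (v : ℕ) (N P : ℤ⟦X⟧), 1 ≤ v ∧ coeff 0 N = 1 ∧ Bd (N - 1) (1 / 4) ∧ coeff 0 P = 0 ∧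
    Bd P (1 / 8 - 8 * (1 / 32 : ℝ) ^ v) ∧ φ * (1 - 64 * X + P) = 2 * X ^ v * N

lemma coeff_den {P : ℤ⟦X⟧} (hP0 : coeff 0 P = 0) : coeff 0 (1 - 64 * X + P : ℤ⟦X⟧) = 1 := by
  rw [map_add, map_sub, hP0, coeff_zero_mul_X]
  simp

lemma Good.const {φ : ℤ⟦X⟧} (h : Good φ) : constantCoeff φ = 0 := by
  obtain ⟨v, N, P, hv, -, -, hP0, -, h⟩ := h
  have h1 := congrArg constantCoeff h
  have h2 := coeff_den hP0
  rw [coeff_zero_eq_constantCoeff_apply] at h2
  have h3 : v ≠ 0 := by omega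
  rw [map_mul, h2] at h1
  simpa [h3] using h1

/-- `φ` is the sum of the contributions of loops of lengths `ℓ i` and of branches carrying `c j` -/
def Expands {K : ℕ} (φ : ℤ⟦X⟧) (ℓ : Fin 3 × Fin K → ℕ) (c : Fin K → ℤ⟦X⟧) : Prop :=
  (∀ j, c j = 0 ∨ Good (c j)) ∧
  ∃ (lam : Fin 3 × Fin K → ℤ⟦X⟧) (θ : Fin K → ℤ⟦X⟧),
    (∀ i, (ℓ i = 0 → lam i = 0) ∧ (ℓ i ≠ 0 → (1 + X ^ ℓ i) * lam i = 2 * X ^ ℓ i)) ∧
    (∀ j, θ j * (1 - (1 - X ^ 2) * c j) = X ^ 2 * c j) ∧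
    φ = ∑ i, lam i + ∑ j, θ j

lemma sum_ite_lt {K c : ℕ} (h : c ≤ K) (f : ℕ → ℤ⟦X⟧) :
    ∑ i : Fin K, (if (i : ℕ) < c then f i else 0) = ∑ i ∈ range c, f i := by
  rw [Fin.sum_univ_eq_sum_range (fun i => if i < c then f i else 0) K, ← sum_filter]
  congr 1
  ext i
  simp only [mem_filter, mem_range]
  omega

lemma exists_loop_inv {v : ℕ} (hv : 1 ≤ v) : ∃ G : ℤ⟦X⟧, (1 + X ^ v) * G = 1 := by
  refine exists_inv _ ?_
  have h3 : v ≠ 0 := by omega
  simp [h3]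

lemma step_good {K : ℕ} (hK : 2097152 ≤ K) {φ : ℤ⟦X⟧} (h : Good φ) :
    ∃ (ℓ : Fin 3 × Fin K → ℕ) (c : Fin K → ℤ⟦X⟧), Expands φ ℓ c ∧ (∃ i, ℓ i ≠ 0) ∧
      ∃ j, Good (c j) := by
  obtain ⟨v, N, P, hv, hN0, hN, hP0, hP, hφ⟩ := h
  obtain ⟨G0, hG0⟩ := exists_loop_inv hv
  obtain ⟨G1, hG1⟩ := exists_loop_inv (show 1 ≤ v + 1 by omega)
  obtain ⟨G2, hG2⟩ := exists_loop_inv (show 1 ≤ v + 2 by omega)
  have hρ : (0 : ℝ) < (1 / 32 : ℝ) ^ v := by positivity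
  obtain ⟨c1, N1, h11, h12, h13, h14, h15⟩ := peel (c := 1) (e := 1 / 4) hv le_rfl
    (by simpa using hN0) (by simpa using hN) hP0 hP le_rfl (by linarith) hG0
  obtain ⟨c2, N2, h21, h22, h23, h24, h25⟩ := peel (show 1 ≤ v + 1 by omega) h11 h13 h14 hP0 hP
    (by norm_num) (by rw [pow_succ]; linarith) hG1
  obtain ⟨c3, N3, h31, h32, h33, h34, h35⟩ := peel (show 1 ≤ v + 2 by omega) h21 h23 h24 hP0 hP
    (by norm_num) (by rw [pow_succ, pow_succ]; linarith) hG2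
  obtain ⟨T, hT, hTs⟩ := split h31 h33 h34
  obtain ⟨E, hE⟩ := exists_inv _ (coeff_den hP0)
  have hPj0 : ∀ j, coeff 0 (P + 2 * (1 - X ^ 2) * X ^ (v + 1) * T j) = 0 := by
    intro j
    have h2 : constantCoeff P = 0 := by simpa using hP0
    simp [h2]
  choose E' hE' using fun j => exists_inv _ (coeff_den (hPj0 j))
  have hgood : ∀ j, Good (2 * X ^ (v + 1) * T j * E' j) := by
    intro j
    refine ⟨v + 1, T j, _, by omega, (hT j).1, (hT j).2, hPj0 j, ?_, ?_⟩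
    · have h2 : Bd (2 : ℤ⟦X⟧) 2 := by exact_mod_cast bd_nat 2
      have h3 : Bd (T j) (1 / 4 + 1) := by simpa using (hT j).2.add bd_one
      refine (hP.add (((h2.mul (bd_one.sub (bd_X_pow 2))).mul (bd_X_pow (v + 1))).mul h3)).mono ?_
      rw [pow_succ (1 / 32 : ℝ) v]
      nlinarith
    · linear_combination (2 * X ^ (v + 1) * T j) * hE' j
  let cc : Fin 3 → ℕ := ![1, c1, c2]
  let GG : Fin 3 → ℤ⟦X⟧ := ![G0, G1, G2]
  have hGG : ∀ t : Fin 3, (1 + X ^ (v + t)) * GG t = 1 := by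
    intro t
    fin_cases t
    · exact hG0
    · exact hG1
    · exact hG2
  have hK0 : 0 < K := by omega
  refine ⟨fun i => if (i.2 : ℕ) < cc i.1 then v + i.1 else 0,
    fun j => if (j : ℕ) < c3 then 2 * X ^ (v + 1) * T j * E' j else 0, ⟨?_, ?_⟩, ?_, ?_⟩
  · intro j
    by_cases hj : (j : ℕ) < c3
    · right
      simp only [if_pos hj]
      exact hgood j
    · left
      simp only [if_neg hj]
  · refine ⟨fun i => if (i.2 : ℕ) < cc i.1 then 2 * X ^ (v + i.1) * GG i.1 else 0,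
      fun j => if (j : ℕ) < c3 then 2 * X ^ (v + 3) * T j * E else 0, ?_, ?_, ?_⟩
    · intro i
      by_cases hi : (i.2 : ℕ) < cc i.1
      · simp only [if_pos hi]
        refine ⟨fun h0 => by omega, fun _ => ?_⟩
        linear_combination (2 * X ^ (v + i.1)) * hGG i.1
      · simp only [if_neg hi]
        exact ⟨fun _ => trivial, fun h0 => absurd rfl h0⟩
    · intro j
      by_cases hj : (j : ℕ) < c3
      · simp only [if_pos hj]
        have e1 := hE' j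
        linear_combination (-(2 * X ^ (v + 3) * T j * E)) * e1 + (2 * X ^ (v + 3) * T j * E' j) * hE
      · simp only [if_neg hj]
        ring
    · rw [Fintype.sum_prod_type, Fin.sum_univ_three]
      have s0 := sum_ite_lt (K := K) (c := 1) (by omega) (fun _ => 2 * X ^ v * G0)
      have s1 := sum_ite_lt (K := K) (c := c1) (by omega) (fun _ => 2 * X ^ (v + 1) * G1)
      have s2 := sum_ite_lt (K := K) (c := c2) (by omega) (fun _ => 2 * X ^ (v + 2) * G2)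
      have s3 := sum_ite_lt (K := K) (c := c3) (by omega) (fun j => 2 * X ^ (v + 3) * T j * E)
      have s4 : ∑ j ∈ range c3, 2 * X ^ (v + 3) * T j * E = 2 * X ^ (v + 3) * N3 * E := by
        rw [← sum_mul, ← mul_sum, hTs]
      rw [s4] at s3
      rw [sum_const, card_range, nsmul_eq_mul] at s0 s1 s2
      have t0 : ∑ y : Fin K, (if (y : ℕ) < cc 0 then 2 * X ^ (v + (0 : Fin 3)) * GG 0 else 0) =
          ((1 : ℕ) : ℤ⟦X⟧) * (2 * X ^ v * G0) := s0
      have t1 : ∑ y : Fin K, (if (y : ℕ) < cc 1 then 2 * X ^ (v + (1 : Fin 3)) * GG 1 else 0) =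
          (c1 : ℤ⟦X⟧) * (2 * X ^ (v + 1) * G1) := s1
      have t2 : ∑ y : Fin K, (if (y : ℕ) < cc 2 then 2 * X ^ (v + (2 : Fin 3)) * GG 2 else 0) =
          (c2 : ℤ⟦X⟧) * (2 * X ^ (v + 2) * G2) := s2
      rw [t0, t1, t2, s3]
      linear_combination (-φ) * hE + E * hφ + (2 * X ^ v * E) * h15 +
        (2 * X ^ (v + 1) * E) * h25 + (2 * X ^ (v + 2) * E) * h35 +
        (((1 : ℕ) : ℤ⟦X⟧) * (2 * X ^ v * G0) + (c1 : ℤ⟦X⟧) * (2 * X ^ (v + 1) * G1) +
          (c2 : ℤ⟦X⟧) * (2 * X ^ (v + 2) * G2)) * hE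
  · refine ⟨(0, ⟨0, hK0⟩), ?_⟩
    have : ((⟨0, hK0⟩ : Fin K) : ℕ) < cc 0 := Nat.zero_lt_one
    simp only [if_pos this]
    omega
  · refine ⟨⟨0, hK0⟩, ?_⟩
    have : ((⟨0, hK0⟩ : Fin K) : ℕ) < c3 := h31
    simp only [if_pos this]
    exact hgood _

lemma step {K : ℕ} (hK : 2097152 ≤ K) (φ : ℤ⟦X⟧) :
    ∃ (ℓ : Fin 3 × Fin K → ℕ) (c : Fin K → ℤ⟦X⟧), (φ = 0 ∨ Good φ → Expands φ ℓ c) ∧
      (Good φ → (∃ i, ℓ i ≠ 0) ∧ ∃ j, Good (c j)) := by
  by_cases h : Good φ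
  · obtain ⟨ℓ, c, h1, h2⟩ := step_good hK h
    exact ⟨ℓ, c, fun _ => h1, fun _ => h2⟩
  · refine ⟨fun _ => 0, fun _ => 0, fun h' => ?_, fun h' => absurd h' h⟩
    have h0 : φ = 0 := h'.resolve_right h
    refine ⟨fun _ => Or.inl rfl, fun _ => 0, fun _ => 0, fun _ => ⟨fun _ => rfl, fun h => ?_⟩,
      fun _ => by ring, by simp [h0]⟩
    exact absurd rfl h

lemma exists_root : ∃ φ : ℤ⟦X⟧, Good φ ∧ φ * (1 - 64 * X) = 2 * X ^ 2 := by
  obtain ⟨E, hE⟩ := exists_inv _ (coeff_den (P := 0) (by simp))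
  refine ⟨2 * X ^ 2 * E, ⟨2, 1, 0, by omega, by simp, ?_, by simp, ?_, ?_⟩, ?_⟩
  · rw [sub_self]
    exact bd_zero.mono (by norm_num)
  · exact bd_zero.mono (by norm_num)
  · linear_combination (2 * X ^ 2) * hE
  · linear_combination (2 * X ^ 2) * hE

end Pool.Agent.H258Z.Cogrowth
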