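import Pool.Agent.H258Z.Cogrowth.Words
import Pool.Agent.H258Z.Cogrowth.Series

/-!
An infinitely generated subgroup of a free group with a rational cogrowth series.

The core graph of the subgroup is a rooted tree with loops attached at its vertices.  Each vertex
carries a power series `φ`, and `1 / (1 - φ)` is the cogrowth series of the part of the graph that
hangs below the vertex.
-/

set_option autoImplicit false

namespace Pool.Agent.H258Z.Cogrowth

open PowerSeries Finset FreeGroup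

variable {α : Type} [DecidableEq α]

lemma hd_of (a : α) : hd (of a) = some (a, true) := by simp [hd]

lemma hd_of_inv (a : α) : hd (of a)⁻¹ = some (a, false) := by
  simp [hd, toWord_inv, invRev]

lemma hd_zpow {b : α} {n : ℤ} {s : α × Bool} (h : hd (of b ^ n) = some s) : s.1 = b := by
  have h1 : s ∈ (of b ^ n).toWord := List.mem_of_mem_head? h
  obtain ⟨m, rfl | rfl⟩ := Int.eq_nat_or_neg n
  · rw [zpow_natCast, toWord_of_pow] at h1
    rw [List.eq_of_mem_replicate h1]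
  · rw [zpow_neg, zpow_natCast, toWord_inv, toWord_of_pow, invRev, List.mem_reverse,
      List.mem_map] at h1
    obtain ⟨x, hx, rfl⟩ := h1
    rw [List.eq_of_mem_replicate hx]

lemma hd_loop {b : α} {ℓ : ℕ} {g : FreeGroup α} (hg : g ∈ Subgroup.zpowers (of b ^ ℓ))
    {s : α × Bool} (h : hd g = some s) : s.1 = b := by
  obtain ⟨n, rfl⟩ := Subgroup.mem_zpowers_iff.1 hg
  rw [← zpow_natCast, ← zpow_mul] at h
  exact hd_zpow h

lemma gf_loop [Finite α] (b : α) {ℓ : ℕ} (hℓ : ℓ ≠ 0) {lam : ℤ⟦X⟧}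
    (h : (1 + X ^ ℓ) * lam = 2 * X ^ ℓ) :
    (1 - lam) * gf (Subgroup.zpowers (of b ^ ℓ) : Set (FreeGroup α)) = 1 := by
  set P : Set (FreeGroup α) := Set.range fun n : ℕ => (of b ^ ℓ) ^ n with hP
  set P' : Set (FreeGroup α) := (fun g => of b ^ ℓ * g) '' P with hP'
  have hn : ∀ n : ℕ, ((of b ^ ℓ) ^ n).norm = ℓ * n := fun n => by rw [← pow_mul, norm_of_pow]
  have h1 : gf P' = X ^ ℓ * gf P := by
    refine gf_shift (mul_right_injective _) ?_
    rintro _ ⟨n, rfl⟩
    simp only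
    rw [← pow_succ', hn, hn]
    ring
  have h2 : gf P = 1 + gf P' := by
    have e : P = {1} ∪ P' := by
      ext g
      constructor
      · rintro ⟨n, rfl⟩
        cases n with
        | zero => exact Or.inl (pow_zero _)
        | succ n => exact Or.inr ⟨_, ⟨n, rfl⟩, (pow_succ' _ _).symm⟩
      · rintro (rfl | ⟨_, ⟨n, rfl⟩, rfl⟩)
        · exact ⟨0, pow_zero _⟩
        · exact ⟨n + 1, pow_succ' _ _⟩
    have d : Disjoint ({1} : Set (FreeGroup α)) P' := by
      rw [Set.disjoint_left]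
      rintro _ rfl ⟨_, ⟨n, rfl⟩, h3⟩
      simp only at h3
      have := hn (n + 1)
      rw [pow_succ', h3, FreeGroup.norm_one] at this
      exact absurd this.symm (by positivity)
    conv_lhs => rw [e, gf_union d, gf_one]
  have h3 : gf ((fun g => g⁻¹) '' P') = X ^ 0 * gf P' :=
    gf_shift inv_injective fun g _ => by rw [norm_inv_eq, add_zero]
  have h4 : gf (Subgroup.zpowers (of b ^ ℓ) : Set (FreeGroup α)) =
      gf P + gf ((fun g => g⁻¹) '' P') := by
    have e : (Subgroup.zpowers (of b ^ ℓ) : Set (FreeGroup α)) = P ∪ (fun g => g⁻¹) '' P' := by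
      ext g
      constructor
      · intro hg
        obtain ⟨n, rfl⟩ := Subgroup.mem_zpowers_iff.1 hg
        cases n with
        | ofNat n => exact Or.inl ⟨n, by simp⟩
        | negSucc n =>
          exact Or.inr ⟨_, ⟨_, ⟨n, rfl⟩, rfl⟩, by simp only [zpow_negSucc, pow_succ']⟩
      · rintro (⟨n, rfl⟩ | ⟨_, ⟨_, ⟨n, rfl⟩, rfl⟩, rfl⟩)
        · exact pow_mem (Subgroup.mem_zpowers _) n
        · exact inv_mem (mul_mem (Subgroup.mem_zpowers _) (pow_mem (Subgroup.mem_zpowers _) n))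
    have d : Disjoint P ((fun g => g⁻¹) '' P') := by
      rw [Set.disjoint_left]
      rintro _ ⟨n, rfl⟩ ⟨_, ⟨_, ⟨m, rfl⟩, rfl⟩, h5⟩
      simp only at h5
      have := hn (m + 1 + n)
      rw [pow_add, pow_succ', ← h5, mul_inv_cancel, FreeGroup.norm_one] at this
      exact absurd this.symm (by positivity)
    rw [e, gf_union d]
  rw [h4, h3, h1]
  rw [h1] at h2
  linear_combination h2 - gf P * h

lemma conj_facts {a : α} {g : FreeGroup α} (h1 : hd g ≠ some (a, false))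
    (h2 : hd g⁻¹ ≠ some (a, false)) (hg : g ≠ 1) :
    hd (of a * g * (of a)⁻¹) = some (a, true) ∧ (of a * g * (of a)⁻¹).norm = g.norm + 2 := by
  have n1 : ∀ s, hd g⁻¹ = some s → hd (of a)⁻¹ ≠ some s := by
    intro s hs h
    rw [hd_of_inv] at h
    exact h2 (hs.trans h.symm)
  have n2 : ∀ s, hd (of a)⁻¹ = some s → hd (g * (of a)⁻¹) ≠ some s := by
    intro s hs h
    rw [hd_of_inv] at hs
    rw [hd_mul_of_hd n1 hg] at h
    exact h1 (h.trans hs.symm)
  rw [mul_assoc, hd_mul_of_hd n2 (of_ne_one a), hd_of, norm_mul_of_hd n2, norm_mul_of_hd n1,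
    norm_inv_eq, norm_of]
  exact ⟨rfl, by ring⟩

/-- the conjugate of a subgroup by a letter -/
def cj (a : α) (H : Subgroup (FreeGroup α)) : Subgroup (FreeGroup α) :=
  H.map (MulAut.conj (of a)).toMonoidHom

omit [DecidableEq α] in
lemma mem_cj {a : α} {H : Subgroup (FreeGroup α)} {x : FreeGroup α} :
    x ∈ cj a H ↔ ∃ g ∈ H, of a * g * (of a)⁻¹ = x := by
  simp [cj]

lemma hd_cj {a : α} {H : Subgroup (FreeGroup α)} (hH : ∀ g ∈ H, hd g ≠ some (a, false))
    {x : FreeGroup α} (hx : x ∈ cj a H) {s : α × Bool} (h : hd x = some s) : s = (a, true) := by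
  obtain ⟨g, hg, rfl⟩ := mem_cj.1 hx
  by_cases h1 : g = 1
  · subst h1
    rw [mul_one, mul_inv_cancel, hd_one] at h
    cases h
  · rw [(conj_facts (hH g hg) (hH _ (inv_mem hg)) h1).1] at h
    exact (Option.some.inj h).symm

lemma gf_cj [Finite α] {a : α} {H : Subgroup (FreeGroup α)}
    (hH : ∀ g ∈ H, hd g ≠ some (a, false)) :
    gf (cj a H : Set (FreeGroup α)) = 1 + X ^ 2 * (gf (H : Set (FreeGroup α)) - 1) := by
  set B : Set (FreeGroup α) := {g | g ∈ H ∧ g ≠ 1} with hB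
  have h1 : gf (H : Set (FreeGroup α)) = 1 + gf B := by
    have e : (H : Set (FreeGroup α)) = {1} ∪ B := by
      ext g
      constructor
      · intro hg
        by_cases h : g = 1
        · exact Or.inl h
        · exact Or.inr ⟨hg, h⟩
      · rintro (rfl | h)
        · exact one_mem H
        · exact h.1
    have d : Disjoint ({1} : Set (FreeGroup α)) B := by
      rw [Set.disjoint_left]
      rintro _ rfl h
      exact h.2 rfl
    conv_lhs => rw [e, gf_union d, gf_one]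
  have hinj : Function.Injective fun g : FreeGroup α => of a * g * (of a)⁻¹ := by
    intro x y h
    simpa using h
  have h2 : gf ((fun g => of a * g * (of a)⁻¹) '' B) = X ^ 2 * gf B :=
    gf_shift hinj fun g hg => (conj_facts (hH g hg.1) (hH _ (inv_mem hg.1)) hg.2).2
  have e : (cj a H : Set (FreeGroup α)) = {1} ∪ (fun g => of a * g * (of a)⁻¹) '' B := by
    ext x
    rw [SetLike.mem_coe, mem_cj]
    constructor
    · rintro ⟨g, hg, rfl⟩
      by_cases h : g = 1
      · left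
        simp [h]
      · exact Or.inr ⟨g, ⟨hg, h⟩, rfl⟩
    · rintro (rfl | ⟨g, hg, rfl⟩)
      · exact ⟨1, one_mem H, by simp⟩
      · exact ⟨g, hg.1, rfl⟩
  have d : Disjoint ({1} : Set (FreeGroup α)) ((fun g => of a * g * (of a)⁻¹) '' B) := by
    rw [Set.disjoint_left]
    rintro _ rfl ⟨g, hg, h⟩
    exact hg.2 (hinj (h.trans (by simp)))
  rw [e, gf_union d, gf_one, h2, h1]
  ring

section construction

variable {K : ℕ} (e : (Fin 3 × Fin K) ⊕ Fin K → α) (L : ℤ⟦X⟧ → Fin 3 × Fin K → ℕ)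
  (Ch : ℤ⟦X⟧ → Fin K → ℤ⟦X⟧)

/-- the loops and the branches at a vertex -/
def piece (Hd : ℤ⟦X⟧ → Subgroup (FreeGroup α)) (φ : ℤ⟦X⟧) :
    (Fin 3 × Fin K) ⊕ Fin K → Subgroup (FreeGroup α)
  | Sum.inl i => Subgroup.zpowers (of (e (Sum.inl i)) ^ L φ i)
  | Sum.inr j => cj (e (Sum.inr j)) (Hd (Ch φ j))

/-- the subgroup below a vertex, cut off at depth `d` -/
def HH : ℕ → ℤ⟦X⟧ → Subgroup (FreeGroup α)
  | 0 => fun _ => ⊥
  | d + 1 => fun φ => ⨆ i, piece e L Ch (HH d) φ i

/-- the first letters -/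
def TT : (Fin 3 × Fin K) ⊕ Fin K → Set (α × Bool)
  | Sum.inl i => {s | s.1 = e (Sum.inl i)}
  | Sum.inr j => {(e (Sum.inr j), true)}

variable {e}

omit [DecidableEq α] in
lemma TT_fst {i : (Fin 3 × Fin K) ⊕ Fin K} {s : α × Bool} (h : s ∈ TT e i) : s.1 = e i := by
  cases i with
  | inl i => exact h
  | inr j => rw [show s = (e (Sum.inr j), true) from h]

lemma sep_of (he : Function.Injective e) {Hd : ℤ⟦X⟧ → Subgroup (FreeGroup α)}
    (h : ∀ φ, ∀ g ∈ Hd φ, ∀ j, hd g ≠ some (e (Sum.inr j), false)) (φ : ℤ⟦X⟧) :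
    Sep (piece e L Ch Hd φ) (TT e) := by
  constructor
  · rintro (i | j) g hg s hs
    · exact hd_loop hg hs
    · exact hd_cj (fun g hg => h _ g hg j) hg hs
  · intro i j hij s h1 h2
    exact hij (he ((TT_fst h1).symm.trans (TT_fst h2)))

lemma hd_HH [NeZero K] (he : Function.Injective e) (d : ℕ) :
    ∀ φ, ∀ g ∈ HH e L Ch d φ, ∀ j, hd g ≠ some (e (Sum.inr j), false) := by
  induction d with
  | zero =>
    intro φ g hg j
    rw [show g = 1 from hg, hd_one]
    simp
  | succ d ih =>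
    intro φ g hg j hs
    obtain ⟨i, hi⟩ := (sep_of L Ch he ih φ).head_iSup hg _ hs
    have h1 : Sum.inr j = i := he (TT_fst hi)
    subst h1
    have h2 : (e (Sum.inr j), false) = (e (Sum.inr j), true) := hi
    simp at h2

lemma sep_HH [NeZero K] (he : Function.Injective e) (d : ℕ) (φ : ℤ⟦X⟧) :
    Sep (piece e L Ch (HH e L Ch d) φ) (TT e) :=
  sep_of L Ch he (hd_HH L Ch he d) φ

omit [DecidableEq α] in
lemma HH_succ (d : ℕ) : ∀ φ, HH e L Ch d φ ≤ HH e L Ch (d + 1) φ := by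
  induction d with
  | zero => intro φ; exact bot_le
  | succ d ih =>
    intro φ
    refine iSup_mono ?_
    rintro (i | j)
    · exact le_rfl
    · exact Subgroup.map_mono (ih _)

lemma HH_dvd [Finite α] [NeZero K] (he : Function.Injective e)
    (hs : ∀ φ, φ = 0 ∨ Good φ → Expands φ (L φ) (Ch φ)) (d : ℕ) :
    ∀ φ, φ = 0 ∨ Good φ →
      (X : ℤ⟦X⟧) ^ d ∣ (1 - φ) * gf (HH e L Ch d φ : Set (FreeGroup α)) - 1 := by
  induction d with
  | zero => intro φ _; rw [pow_zero]; exact one_dvd _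
  | succ d ih =>
    intro φ hφ
    obtain ⟨h1, lam, θ, h2, h3, h4⟩ := hs φ hφ
    have h5 : φ = ∑ i, Sum.elim lam θ i := by
      rw [Fintype.sum_sum_type]
      exact h4
    have key := (sep_HH L Ch he d φ).gf_dvd (Sum.elim lam θ) (X ^ (d + 1)) ?_
    · rw [← h5] at key
      exact key
    rintro (i | j)
    · simp only [Sum.elim_inl, piece]
      by_cases h0 : L φ i = 0
      · rw [(h2 i).1 h0, h0, pow_zero, Subgroup.zpowers_one_eq_bot, Subgroup.coe_bot, gf_one]
        simp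
      · rw [gf_loop _ h0 ((h2 i).2 h0)]
        simp
    · simp only [Sum.elim_inr, piece]
      rw [gf_cj fun g hg => hd_HH L Ch he d _ g hg j]
      obtain ⟨w, hw⟩ := ih _ (h1 j)
      have hc : constantCoeff (Ch φ j) = 0 := by
        rcases h1 j with h | h
        · rw [h, map_zero]
        · exact h.const
      obtain ⟨U, hU⟩ := exists_inv (1 - (1 - X ^ 2) * Ch φ j) (by simp [hc])
      refine ⟨U * X * w, ?_⟩
      have h6 := h3 j
      set Γ := gf (HH e L Ch d (Ch φ j) : Set (FreeGroup α))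
      linear_combination (-((1 - θ j) * (1 + X ^ 2 * (Γ - 1)) - 1)) * hU -
        U * (1 + X ^ 2 * (Γ - 1)) * h6 + U * X ^ 2 * hw

lemma HH_strict [NeZero K] (he : Function.Injective e)
    (hs : ∀ φ, Good φ → (∃ i, L φ i ≠ 0) ∧ ∃ j, Good (Ch φ j)) (d : ℕ) :
    ∀ φ, Good φ → ∃ g ∈ HH e L Ch (d + 1) φ, g ∉ HH e L Ch d φ := by
  induction d with
  | zero =>
    intro φ hφ
    obtain ⟨⟨i, hi⟩, -⟩ := hs φ hφ
    refine ⟨of (e (Sum.inl i)) ^ L φ i,
      Subgroup.mem_iSup_of_mem (Sum.inl i) (Subgroup.mem_zpowers _), fun h => hi ?_⟩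
    have h1 : of (e (Sum.inl i)) ^ L φ i = 1 := h
    rw [← norm_of_pow (e (Sum.inl i)) (L φ i), h1, FreeGroup.norm_one]
  | succ d ih =>
    intro φ hφ
    obtain ⟨-, j, hj⟩ := hs φ hφ
    obtain ⟨g, hg1, hg2⟩ := ih _ hj
    have hm : of (e (Sum.inr j)) * g * (of (e (Sum.inr j)))⁻¹ ∈
        piece e L Ch (HH e L Ch (d + 1)) φ (Sum.inr j) := mem_cj.2 ⟨g, hg1, rfl⟩
    refine ⟨_, Subgroup.mem_iSup_of_mem (Sum.inr j) hm, fun h => hg2 ?_⟩
    obtain ⟨k, hk, g', hg', e1⟩ := exists_alt h (Sum.inr j)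
    obtain ⟨g0, hg0, rfl⟩ := mem_cj.1 hk
    have h1 : g0⁻¹ * g ∈ HH e L Ch (d + 1) (Ch φ j) :=
      mul_mem (inv_mem (HH_succ L Ch d _ hg0)) hg1
    have h2 : g' = of (e (Sum.inr j)) * (g0⁻¹ * g) * (of (e (Sum.inr j)))⁻¹ := by
      rw [eq_inv_mul_iff_mul_eq.2 e1]
      group
    by_contra hcon
    have h3 : g0⁻¹ * g ≠ 1 := fun h => hcon (inv_mul_eq_one.1 h ▸ hg0)
    have h4 := (conj_facts (hd_HH L Ch he (d + 1) _ _ h1 j)
      (hd_HH L Ch he (d + 1) _ _ (inv_mem h1) j) h3).1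
    rw [← h2] at h4
    exact (sep_HH L Ch he d φ).alt_notMem hg' _ h4 rfl

end construction

lemma exists_stage {G : Type} [Group G] {H : ℕ → Subgroup G} (hm : Monotone H) {A : Set G}
    (hA : A.Finite) (h : ∀ g ∈ A, g ∈ ⨆ d, H d) : ∃ d, ∀ g ∈ A, g ∈ H d := by
  have h1 : ∀ g : A, ∃ d, (g : G) ∈ H d := fun g =>
    (Subgroup.mem_iSup_of_directed hm.directed_le).1 (h g g.2)
  choose f hf using h1
  have : Finite A := hA
  obtain ⟨d, hd⟩ := (Set.finite_range f).bddAbove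
  exact ⟨d, fun g hg => hm (hd ⟨⟨g, hg⟩, rfl⟩) (hf ⟨g, hg⟩)⟩

theorem exists_subgroup [Finite α] {K : ℕ} (hK : 2097152 ≤ K) {e : (Fin 3 × Fin K) ⊕ Fin K → α}
    (he : Function.Injective e) :
    ∃ H : Subgroup (FreeGroup α), ¬ H.FG ∧
      (1 - 64 * X - 2 * X ^ 2) * gf (H : Set (FreeGroup α)) = 1 - 64 * X := by
  have : NeZero K := ⟨by omega⟩
  choose L Ch h1 h2 using step hK
  obtain ⟨φ, hφ, hφ'⟩ := exists_root
  have hm : Monotone fun d => HH e L Ch d φ :=
    monotone_nat_of_le_succ fun d => HH_succ L Ch d φ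
  refine ⟨⨆ d, HH e L Ch d φ, ?_, ?_⟩
  · intro hfg
    obtain ⟨A, hA1, hA2⟩ := (Subgroup.fg_iff _).1 hfg
    obtain ⟨d, hd⟩ := exists_stage hm hA2 fun g hg => hA1 ▸ Subgroup.subset_closure hg
    obtain ⟨g, hg1, hg2⟩ := HH_strict L Ch he h2 d φ hφ
    have h3 : Subgroup.closure A ≤ HH e L Ch d φ := (Subgroup.closure_le _).2 hd
    exact hg2 (h3 (hA1 ▸ Subgroup.mem_iSup_of_mem (d + 1) hg1))
  · set H : Subgroup (FreeGroup α) := ⨆ d, HH e L Ch d φ with hH
    have key : (1 - φ) * gf (H : Set (FreeGroup α)) - 1 = 0 := by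
      ext n
      have hfin : {g : FreeGroup α | g ∈ H ∧ g.norm ≤ n}.Finite := by
        refine ((Set.finite_le_nat n).biUnion fun m _ =>
          finite_sphere (H : Set (FreeGroup α)) m).subset ?_
        intro g hg
        simp only [Set.mem_iUnion]
        exact ⟨g.norm, hg.2, hg.1, rfl⟩
      obtain ⟨d, hd⟩ := exists_stage hm hfin fun g hg => hg.1
      have h3 : (X : ℤ⟦X⟧) ^ (n + 1) ∣ (1 - φ) *
          gf (HH e L Ch (max d (n + 1)) φ : Set (FreeGroup α)) - 1 :=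
        (pow_dvd_pow X (le_max_right _ _)).trans (HH_dvd L Ch he h1 _ φ (Or.inr hφ))
      have h4 : (X : ℤ⟦X⟧) ^ (n + 1) ∣ gf (H : Set (FreeGroup α)) -
          gf (HH e L Ch (max d (n + 1)) φ : Set (FreeGroup α)) := by
        rw [X_pow_dvd_iff]
        intro m hmn
        rw [map_sub, gf, gf, coeff_mk, coeff_mk, sub_eq_zero]
        congr 2
        ext g
        constructor
        · rintro ⟨hg, hg'⟩
          exact ⟨hm (le_max_left _ _) (hd g ⟨hg, by omega⟩), hg'⟩
        · rintro ⟨hg, hg'⟩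
          exact ⟨Subgroup.mem_iSup_of_mem _ hg, hg'⟩
      have h5 : (X : ℤ⟦X⟧) ^ (n + 1) ∣ (1 - φ) * gf (H : Set (FreeGroup α)) - 1 := by
        have := dvd_add h3 (h4.mul_left (1 - φ))
        convert this using 1
        ring
      rw [X_pow_dvd_iff.1 h5 n (Nat.lt_succ_self n), map_zero]
    linear_combination (1 - 64 * X) * key + gf (H : Set (FreeGroup α)) * hφ'

end Pool.Agent.H258Z.Cogrowth
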