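import Mathlib

/-!
Generating functions of subsets of a free group, and free products without cancellation.
-/

set_option autoImplicit false

namespace Pool.Agent.H258Z.Cogrowth

open PowerSeries Finset FreeGroup

variable {α : Type} [DecidableEq α]

/-- the first letter of the reduced word -/
def hd (g : FreeGroup α) : Option (α × Bool) := g.toWord.head?

lemma hd_one : hd (1 : FreeGroup α) = none := by simp [hd]

lemma hd_eq_none {g : FreeGroup α} (h : hd g = none) : g = 1 := by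
  unfold hd at h
  rw [List.head?_eq_none_iff] at h
  exact toWord_eq_nil_iff.1 h

lemma toWord_mul_of_hd {x y : FreeGroup α} (h : ∀ s, hd x⁻¹ = some s → hd y ≠ some s) :
    (x * y).toWord = x.toWord ++ y.toWord := by
  rw [toWord_mul]
  apply FreeGroup.IsReduced.reduce_eq
  unfold FreeGroup.IsReduced
  rw [List.isChain_append]
  refine ⟨isReduced_toWord, isReduced_toWord, ?_⟩
  intro a ha b hb hab
  by_contra hne
  apply h b
  · unfold hd
    rw [toWord_inv, invRev, List.head?_reverse, List.getLast?_map, Option.mem_def.1 ha]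
    obtain ⟨a1, a2⟩ := a
    obtain ⟨b1, b2⟩ := b
    simp only at hab hne
    subst hab
    cases a2 <;> cases b2 <;> simp_all
  · exact hb

lemma norm_mul_of_hd {x y : FreeGroup α} (h : ∀ s, hd x⁻¹ = some s → hd y ≠ some s) :
    (x * y).norm = x.norm + y.norm := by
  unfold FreeGroup.norm
  rw [toWord_mul_of_hd h, List.length_append]

lemma hd_mul_of_hd {x y : FreeGroup α} (h : ∀ s, hd x⁻¹ = some s → hd y ≠ some s) (hx : x ≠ 1) :
    hd (x * y) = hd x := by
  unfold hd
  rw [toWord_mul_of_hd h, List.head?_append_of_ne_nil]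
  exact fun h0 => hx (toWord_eq_nil_iff.1 h0)

/-! ### generating functions -/

lemma finite_sphere [Finite α] (A : Set (FreeGroup α)) (n : ℕ) :
    {g | g ∈ A ∧ g.norm = n}.Finite := by
  refine Set.Finite.of_finite_image (f := toWord) ?_ toWord_injective.injOn
  refine (List.finite_length_eq (α × Bool) n).subset ?_
  rintro _ ⟨g, hg, rfl⟩
  exact hg.2

/-- the growth series of a set of group elements -/
noncomputable def gf (A : Set (FreeGroup α)) : ℤ⟦X⟧ :=
  PowerSeries.mk fun n => ({g | g ∈ A ∧ g.norm = n}.ncard : ℤ)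

lemma gf_empty : gf (∅ : Set (FreeGroup α)) = 0 := by
  ext n
  simp [gf]

lemma gf_one : gf ({1} : Set (FreeGroup α)) = 1 := by
  ext n
  rw [gf, coeff_mk, coeff_one]
  split_ifs with h
  · have : {g : FreeGroup α | g ∈ ({1} : Set (FreeGroup α)) ∧ g.norm = n} = {1} := by
      ext g
      simp only [Set.mem_singleton_iff, Set.mem_ofPred_eq, h, FreeGroup.norm_eq_zero, and_self]
    rw [this]
    simp
  · have : {g : FreeGroup α | g ∈ ({1} : Set (FreeGroup α)) ∧ g.norm = n} = ∅ := by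
      ext g
      simp only [Set.mem_singleton_iff, Set.mem_ofPred_eq, Set.mem_empty_iff_false, iff_false]
      rintro ⟨rfl, h2⟩
      exact h (by simpa using h2.symm)
    rw [this]
    simp

variable [Finite α]

lemma gf_union {A B : Set (FreeGroup α)} (h : Disjoint A B) : gf (A ∪ B) = gf A + gf B := by
  ext n
  rw [map_add, gf, gf, gf, coeff_mk, coeff_mk, coeff_mk]
  have : {g : FreeGroup α | g ∈ A ∪ B ∧ g.norm = n} =
      {g | g ∈ A ∧ g.norm = n} ∪ {g | g ∈ B ∧ g.norm = n} := by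
    ext g
    simp only [Set.mem_union, Set.mem_ofPred_eq]
    tauto
  rw [this, Set.ncard_union_eq _ (finite_sphere A n) (finite_sphere B n)]
  · push_cast
    rfl
  · exact h.mono (fun g hg => hg.1) (fun g hg => hg.1)

lemma gf_biUnion {ι : Type} (s : Finset ι) (A : ι → Set (FreeGroup α))
    (h : ∀ i j, i ≠ j → Disjoint (A i) (A j)) : gf (⋃ i ∈ s, A i) = ∑ i ∈ s, gf (A i) := by
  classical
  induction s using Finset.induction_on with
  | empty => simp [gf_empty]
  | insert i s hi ih =>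
    rw [Finset.set_biUnion_insert, gf_union, ih, sum_insert hi]
    rw [Set.disjoint_iUnion₂_right]
    intro j hj
    exact h i j (fun e => hi (e ▸ hj))

omit [Finite α] in
lemma gf_shift {A : Set (FreeGroup α)} {σ : FreeGroup α → FreeGroup α} (hσ : Function.Injective σ)
    {s : ℕ} (h : ∀ g ∈ A, (σ g).norm = g.norm + s) : gf (σ '' A) = X ^ s * gf A := by
  ext n
  rw [coeff_X_pow_mul', gf, gf, coeff_mk]
  split_ifs with hn
  · rw [coeff_mk]
    have : {g : FreeGroup α | g ∈ σ '' A ∧ g.norm = n} =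
        σ '' {g | g ∈ A ∧ g.norm = n - s} := by
      ext g
      constructor
      · rintro ⟨⟨a, ha, rfl⟩, h2⟩
        refine ⟨a, ⟨ha, ?_⟩, rfl⟩
        have := h a ha
        omega
      · rintro ⟨a, ⟨ha, h2⟩, rfl⟩
        refine ⟨⟨a, ha, rfl⟩, ?_⟩
        have := h a ha
        omega
    rw [this, Set.ncard_image_of_injective _ hσ]
  · have : {g : FreeGroup α | g ∈ σ '' A ∧ g.norm = n} = ∅ := by
      ext g
      simp only [Set.mem_ofPred_eq, Set.mem_empty_iff_false, iff_false]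
      rintro ⟨⟨a, ha, rfl⟩, h2⟩
      have := h a ha
      omega
    rw [this]
    simp

lemma gf_mul {A B K : Set (FreeGroup α)} (hK : ∀ g, g ∈ K ↔ ∃ a ∈ A, ∃ b ∈ B, a * b = g)
    (hn : ∀ a ∈ A, ∀ b ∈ B, (a * b).norm = a.norm + b.norm)
    (hu : ∀ a ∈ A, ∀ b ∈ B, ∀ a' ∈ A, ∀ b' ∈ B, a * b = a' * b' → a = a') :
    gf K = gf A * gf B := by
  classical
  ext n
  rw [coeff_mul, gf, gf, gf, coeff_mk]
  simp only [coeff_mk]
  simp only [Set.ncard_eq_toFinset_card _ (finite_sphere _ _)]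
  have h1 : ∑ p ∈ HasAntidiagonal.antidiagonal n, ((finite_sphere A p.1).toFinset.card *
      (finite_sphere B p.2).toFinset.card) = (finite_sphere K n).toFinset.card := by
    simp only [← card_product]
    rw [← card_sigma]
    refine card_bij (fun x _ => x.2.1 * x.2.2) ?_ ?_ ?_
    · rintro ⟨p, a, b⟩ hx
      simp only [mem_sigma, mem_product, Set.Finite.mem_toFinset, Set.mem_ofPred_eq,
        HasAntidiagonal.mem_antidiagonal] at hx ⊢
      obtain ⟨h0, ⟨ha, ha'⟩, hb, hb'⟩ := hx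
      exact ⟨(hK _).2 ⟨a, ha, b, hb, rfl⟩, by rw [hn a ha b hb, ha', hb', h0]⟩
    · rintro ⟨⟨p, q⟩, a, b⟩ hx ⟨⟨p', q'⟩, a', b'⟩ hx' he
      simp only [mem_sigma, mem_product, Set.Finite.mem_toFinset, Set.mem_ofPred_eq,
        HasAntidiagonal.mem_antidiagonal] at hx hx' he
      obtain ⟨-, ⟨ha, rfl⟩, hb, rfl⟩ := hx
      obtain ⟨-, ⟨ha', rfl⟩, hb', rfl⟩ := hx'
      have e1 := hu a ha b hb a' ha' b' hb' he
      subst e1
      have e2 : b = b' := mul_left_cancel he
      subst e2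
      rfl
    · intro g hg
      simp only [Set.Finite.mem_toFinset, Set.mem_ofPred_eq] at hg
      obtain ⟨a, ha, b, hb, rfl⟩ := (hK g).1 hg.1
      refine ⟨⟨(a.norm, b.norm), a, b⟩, ?_, rfl⟩
      simp only [mem_sigma, mem_product, Set.Finite.mem_toFinset, Set.mem_ofPred_eq,
        HasAntidiagonal.mem_antidiagonal]
      exact ⟨by rw [← hn a ha b hb, hg.2], ⟨ha, trivial⟩, hb, trivial⟩
  rw [← h1]
  push_cast
  rfl

/-! ### free products without cancellation -/

section fp

variable {ι : Type} (K : ι → Subgroup (FreeGroup α))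

/-- alternating products whose first factor is not from `K i` -/
inductive Alt : ι → FreeGroup α → Prop
  | one (i : ι) : Alt i 1
  | cons (i j : ι) (k g : FreeGroup α) : j ≠ i → k ∈ K j → k ≠ 1 → Alt j g → Alt i (k * g)

variable {K} {T : ι → Set (α × Bool)}

/-- the first letters of the nontrivial elements of `K i` lie in the pairwise disjoint `T i` -/
structure Sep (K : ι → Subgroup (FreeGroup α)) (T : ι → Set (α × Bool)) : Prop where
  head : ∀ i, ∀ g ∈ K i, ∀ s, hd g = some s → s ∈ T i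
  disj : ∀ i j, i ≠ j → ∀ s, s ∈ T i → s ∉ T j

omit [Finite α]

lemma Sep.nc (h : Sep K T) {i : ι} {k g : FreeGroup α} (hk : k ∈ K i)
    (hg : ∀ s, hd g = some s → s ∉ T i) : ∀ s, hd k⁻¹ = some s → hd g ≠ some s :=
  fun s h1 h2 => hg s h2 (h.head i _ (inv_mem hk) s h1)

lemma Sep.alt_head (h : Sep K T) {i : ι} {g : FreeGroup α} (hg : Alt K i g) :
    ∀ s, hd g = some s → ∃ j, j ≠ i ∧ s ∈ T j := by
  induction hg with
  | one i => intro s hs; rw [hd_one] at hs; cases hs
  | cons i j k g hji hk hk1 _ ih =>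
    intro s hs
    have h1 : ∀ s, hd g = some s → s ∉ T j := fun s hs => by
      obtain ⟨l, hl, hs'⟩ := ih s hs
      exact h.disj l j hl s hs'
    rw [hd_mul_of_hd (h.nc hk h1) hk1] at hs
    exact ⟨j, hji, h.head j k hk s hs⟩

lemma Sep.alt_notMem (h : Sep K T) {i : ι} {g : FreeGroup α} (hg : Alt K i g) :
    ∀ s, hd g = some s → s ∉ T i := fun s hs => by
  obtain ⟨l, hl, hs'⟩ := h.alt_head hg s hs
  exact h.disj l i hl s hs'

omit [DecidableEq α] in
lemma alt_mem {i : ι} {g : FreeGroup α} (hg : Alt K i g) : g ∈ ⨆ i, K i := by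
  induction hg with
  | one i => exact one_mem _
  | cons i j k g _ hk _ _ ih => exact mul_mem (Subgroup.mem_iSup_of_mem j hk) ih

omit [DecidableEq α] in
lemma alt_change {j : ι} {k g : FreeGroup α} (hk : k ∈ K j) (hg : Alt K j g) (i : ι) :
    ∃ k' ∈ K i, ∃ g', Alt K i g' ∧ k' * g' = k * g := by
  by_cases hji : j = i
  · subst hji
    exact ⟨k, hk, g, hg, rfl⟩
  by_cases hk1 : k = 1
  · subst hk1
    cases hg with
    | one => exact ⟨1, one_mem _, 1, Alt.one i, rfl⟩
    | cons _ l k' g' hl hk' hk'1 hg' =>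
      by_cases hli : l = i
      · subst hli
        exact ⟨k', hk', g', hg', by rw [one_mul]⟩
      · exact ⟨1, one_mem _, k' * g', Alt.cons i l k' g' hli hk' hk'1 hg', rfl⟩
  · exact ⟨1, one_mem _, k * g, Alt.cons i j k g hji hk hk1 hg, by rw [one_mul]⟩

omit [DecidableEq α] in
lemma exists_alt {g : FreeGroup α} (hg : g ∈ ⨆ i, K i) (i : ι) :
    ∃ k ∈ K i, ∃ g', Alt K i g' ∧ k * g' = g := by
  have key : ∀ t : FreeGroup α, (∀ i, ∃ k ∈ K i, ∃ g', Alt K i g' ∧ k * g' = t) →
      ∀ i, ∃ k ∈ K i, ∃ g', Alt K i g' ∧ k * g' = g * t := by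
    refine Subgroup.iSup_induction K (C := fun g => ∀ t : FreeGroup α,
      (∀ i, ∃ k ∈ K i, ∃ g', Alt K i g' ∧ k * g' = t) →
      ∀ i, ∃ k ∈ K i, ∃ g', Alt K i g' ∧ k * g' = g * t) hg ?_ ?_ ?_
    · intro j x hx t ht i
      obtain ⟨k, hk, g', hg', rfl⟩ := ht j
      obtain ⟨k', hk', g'', hg'', e⟩ := alt_change (mul_mem hx hk) hg' i
      exact ⟨k', hk', g'', hg'', by rw [e, mul_assoc]⟩
    · intro t ht i
      rw [one_mul]
      exact ht i
    · intro x y hx hy t ht i
      rw [mul_assoc]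
      exact hx _ (hy t ht) i
  have := key 1 (fun i => ⟨1, one_mem _, 1, Alt.one i, one_mul 1⟩) i
  rwa [mul_one] at this

lemma Sep.head_iSup [Nonempty ι] (h : Sep K T) {g : FreeGroup α} (hg : g ∈ ⨆ i, K i) :
    ∀ s, hd g = some s → ∃ j, s ∈ T j := by
  intro s hs
  obtain ⟨i⟩ := ‹Nonempty ι›
  obtain ⟨k, hk, g', hg', rfl⟩ := exists_alt hg i
  by_cases hk1 : k = 1
  · subst hk1
    rw [one_mul] at hs
    obtain ⟨j, -, hj⟩ := h.alt_head hg' s hs
    exact ⟨j, hj⟩
  · rw [hd_mul_of_hd (h.nc hk (h.alt_notMem hg')) hk1] at hs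
    exact ⟨i, h.head i k hk s hs⟩

lemma Sep.alt_iff (h : Sep K T) {i : ι} {g : FreeGroup α} :
    Alt K i g ↔ g ∈ ⨆ i, K i ∧ ∀ s, hd g = some s → s ∉ T i := by
  refine ⟨fun hg => ⟨alt_mem hg, h.alt_notMem hg⟩, ?_⟩
  rintro ⟨hg, hs⟩
  obtain ⟨k, hk, g', hg', rfl⟩ := exists_alt hg i
  by_cases hk1 : k = 1
  · subst hk1
    rwa [one_mul]
  · exfalso
    rw [hd_mul_of_hd (h.nc hk (h.alt_notMem hg')) hk1] at hs
    cases hh : hd k with
    | none => exact hk1 (hd_eq_none hh)
    | some s => exact hs s hh (h.head i k hk s hh)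

lemma Sep.unique (h : Sep K T) {i : ι} {a a' b b' : FreeGroup α} (ha : a ∈ K i) (ha' : a' ∈ K i)
    (hb : Alt K i b) (hb' : Alt K i b') (e : a * b = a' * b') : a = a' := by
  by_contra hne
  have h1 : a'⁻¹ * a ≠ 1 := fun e => hne (inv_mul_eq_one.1 e).symm
  have h2 : a'⁻¹ * a ∈ K i := mul_mem (inv_mem ha') ha
  have h3 : b' = (a'⁻¹ * a) * b := by rw [mul_assoc, e, inv_mul_cancel_left]
  have h4 := h.alt_notMem hb'
  rw [h3, hd_mul_of_hd (h.nc h2 (h.alt_notMem hb)) h1] at h4
  cases hh : hd (a'⁻¹ * a) with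
  | none => exact h1 (hd_eq_none hh)
  | some s => exact h4 s hh (h.head i _ h2 s hh)

lemma Sep.gf_eq [Finite α] (h : Sep K T) (i : ι) :
    gf ((⨆ i, K i : Subgroup (FreeGroup α)) : Set (FreeGroup α)) =
      gf (K i : Set (FreeGroup α)) * gf {g | Alt K i g} := by
  refine gf_mul (fun g => ⟨fun hg => exists_alt hg i, ?_⟩) ?_ ?_
  · rintro ⟨a, ha, b, hb, rfl⟩
    exact mul_mem (Subgroup.mem_iSup_of_mem i ha) (alt_mem hb)
  · intro a ha b hb
    exact norm_mul_of_hd (h.nc ha (h.alt_notMem hb))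
  · intro a ha b hb a' ha' b' hb' e
    exact h.unique ha ha' hb hb' e

lemma Sep.gf_sum [Finite α] [Fintype ι] [Nonempty ι] (h : Sep K T) :
    gf ((⨆ i, K i : Subgroup (FreeGroup α)) : Set (FreeGroup α)) - 1 =
      ∑ i, (gf ((⨆ i, K i : Subgroup (FreeGroup α)) : Set (FreeGroup α)) -
        gf {g | Alt K i g}) := by
  set H : Subgroup (FreeGroup α) := ⨆ i, K i with hH
  let B : ι → Set (FreeGroup α) := fun i => {g | g ∈ H ∧ ∃ s, hd g = some s ∧ s ∈ T i}
  have h1 : ∀ i, gf (H : Set (FreeGroup α)) - gf {g | Alt K i g} = gf (B i) := by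
    intro i
    have e : (H : Set (FreeGroup α)) = {g | Alt K i g} ∪ B i := by
      ext g
      simp only [SetLike.mem_coe, Set.mem_union, Set.mem_ofPred_eq, h.alt_iff, B, ← hH]
      by_cases hg : ∃ s, hd g = some s ∧ s ∈ T i
      · tauto
      · have : ∀ s, hd g = some s → s ∉ T i := fun s h1 h2 => hg ⟨s, h1, h2⟩
        tauto
    have d : Disjoint {g | Alt K i g} (B i) := by
      rw [Set.disjoint_left]
      rintro g hg ⟨-, s, h1, h2⟩
      exact h.alt_notMem hg s h1 h2
    conv_lhs => rw [e, gf_union d]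
    ring
  rw [sum_congr rfl fun i _ => h1 i, ← gf_biUnion]
  · have e : (H : Set (FreeGroup α)) = {1} ∪ ⋃ i ∈ (univ : Finset ι), B i := by
      ext g
      simp only [SetLike.mem_coe, Set.mem_union, Set.mem_singleton_iff, Set.mem_iUnion, B,
        Set.mem_ofPred_eq, mem_univ, exists_true_left]
      constructor
      · intro hg
        cases hh : hd g with
        | none => exact Or.inl (hd_eq_none hh)
        | some s =>
          obtain ⟨j, hj⟩ := h.head_iSup hg s hh
          exact Or.inr ⟨j, hg, s, rfl, hj⟩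
      · rintro (rfl | ⟨i, hg, -⟩)
        · exact one_mem _
        · exact hg
    have d : Disjoint ({1} : Set (FreeGroup α)) (⋃ i ∈ (univ : Finset ι), B i) := by
      rw [Set.disjoint_left]
      rintro g rfl hg
      simp only [Set.mem_iUnion, B, Set.mem_ofPred_eq, hd_one] at hg
      obtain ⟨i, -, -, s, hs, -⟩ := hg
      cases hs
    conv_lhs => rw [e, gf_union d, gf_one]
    ring
  · intro i j hij
    rw [Set.disjoint_left]
    rintro g ⟨-, s, h1, h2⟩ ⟨-, s', h1', h2'⟩
    rw [h1] at h1'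
    cases h1'
    exact h.disj i j hij s h2 h2'

/-- the free product formula, modulo an ideal -/
lemma Sep.gf_dvd [Finite α] [Fintype ι] [Nonempty ι] (h : Sep K T) (φ : ι → ℤ⟦X⟧) (u : ℤ⟦X⟧)
    (hφ : ∀ i, u ∣ (1 - φ i) * gf (K i : Set (FreeGroup α)) - 1) :
    u ∣ (1 - ∑ i, φ i) * gf ((⨆ i, K i : Subgroup (FreeGroup α)) : Set (FreeGroup α)) - 1 := by
  have h1 := h.gf_sum
  have h2 := h.gf_eq
  set Γ := gf ((⨆ i, K i : Subgroup (FreeGroup α)) : Set (FreeGroup α))
  have h3 : (1 - ∑ i, φ i) * Γ - 1 =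
      ∑ i, ((1 - φ i) * gf (K i : Set (FreeGroup α)) - 1) * gf {g | Alt K i g} := by
    have : (1 - ∑ i, φ i) * Γ - 1 = (Γ - 1) - ∑ i, φ i * Γ := by
      rw [← sum_mul]
      ring
    rw [this, h1, ← sum_sub_distrib]
    refine sum_congr rfl fun i _ => ?_
    linear_combination (1 - φ i) * h2 i
  rw [h3]
  exact dvd_sum fun i _ => (hφ i).mul_right _

end fp

end Pool.Agent.H258Z.Cogrowth
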